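import Pool.Agent.ATB.Stmts

set_option autoImplicit false

namespace Pool.Agent.ATB.H22

open scoped TensorProduct

section aux
variable {K : Type} [Field K] {n : ℕ}

theorem ins_card_le (B : Multiset (Fin n → K)) (H : Submodule K (Fin n → K)) :
    (ins B H).card ≤ B.card := by
  have h := congrArg Multiset.card (ins_add_out B H)
  rw [Multiset.card_add] at h
  omega

theorem ins_card_lt (B : Multiset (Fin n → K)) (H : Submodule K (Fin n → K)) (h : ¬ sp B ≤ H) :
    (ins B H).card + 1 ≤ B.card := by
  have h1 := congrArg Multiset.card (ins_add_out B H)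
  rw [Multiset.card_add] at h1
  have h2 : 0 < (out B H).card := by
    rw [Multiset.card_pos]
    intro h0
    apply h
    rw [sp_le]
    intro z hz
    by_contra hzH
    have : z ∈ out B H := mem_out.2 ⟨hz, hzH⟩
    rw [h0] at this
    exact Multiset.notMem_zero _ this
  omega

theorem ins_out (Z : Multiset (Fin n → K)) (H : Submodule K (Fin n → K)) : ins (out Z H) H = 0 := by
  rw [Multiset.eq_zero_iff_forall_notMem]
  intro z hz
  rw [mem_ins, mem_out] at hz
  exact hz.1.2 hz.2

theorem out_ins (Z : Multiset (Fin n → K)) (H : Submodule K (Fin n → K)) (hZ : ∀ z ∈ Z, z ∈ H) :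
    out Z H = 0 := by
  rw [Multiset.eq_zero_iff_forall_notMem]
  intro z hz
  rw [mem_out] at hz
  exact hz.2 (hZ z hz.1)

end aux

theorem in2 (lea : LEAStmt) : IN2Stmt := by
  classical
  intro K _ n k Z c i r f hf hsum H₀
  obtain ⟨H0, hc, hr⟩ := H₀
  obtain ⟨lea1, lea4, lea5, lea6, lea7, lea8, lea9, lea10⟩ := lea K n
  obtain ⟨π, hπ1, hπ2, hπc⟩ := lea6 H0 c hc
  obtain ⟨l1, l2, l3⟩ := lea1 H0 π hπ1 hπ2
  have hfH := hf ⟨H0, hc, hr⟩
  by_cases hN : 0 ≤ ((ins Z H0).card : ℤ) - (k + 1 + i)
  swap
  · -- no generators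
    have : Cc (k + 1) Z H0 i ≤ ⊥ := by
      unfold Cc OmH
      rw [Submodule.span_le]
      rintro x ⟨B, D, ω, hω, hBD, hsp, hcard, rfl⟩
      exfalso
      apply hN
      have h := congrArg Multiset.card hBD
      rw [Multiset.card_add] at h
      omega
    have h2 := this hfH
    simpa using h2
  obtain ⟨u, hu⟩ := Int.eq_ofNat_of_zero_le hN
  -- killing lemma
  have kill : ∀ (B D : Multiset (Fin n → K)) (ω : ExteriorAlgebra K (Fin n → K)), B + D = Z →
      ((ins B H0).card : ℤ) ≤ k + i → ldp π u (prodm D) = 0 := by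
    intro B D ω hBD hB
    apply l1
    have h := congrArg (fun Y => (ins Y H0).card) hBD
    simp only [ins_add, Multiset.card_add] at h
    have h3 : (((ins B H0).card + (ins D H0).card : ℕ) : ℤ) = ((ins Z H0).card : ℤ) := by rw [h]
    push_cast at h3
    omega
  have pmt : ∀ (D : Multiset (Fin n → K)) (ω : ExteriorAlgebra K (Fin n → K)),
      ld π u (pm (lin c) (prodm D ⊗ₜ[K] ω)) = (lin c * ldp π u (prodm D)) ⊗ₜ[K] ω := by
    intro D ω
    rw [pm_tmul, lea9]
    have h4 := lea4 π {c} u (prodm D) (by
      intro z hz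
      rw [Multiset.mem_singleton] at hz
      rw [hz, hπc])
    have h5 : prodm ({c} : Multiset (Fin n → K)) = lin c := by simp [prodm]
    rw [h5] at h4
    rw [h4]
  -- the right side is killed
  have hker : Qm' k Z c r i ≤ LinearMap.ker (ld π u) := by
    unfold Qm' Qm
    refine sup_le (sup_le ?_ ?_) ?_
    · unfold Om
      rw [Submodule.span_le]
      rintro x ⟨B, D, ω, hω, hBD, hcard, rfl⟩
      rw [SetLike.mem_coe, LinearMap.mem_ker, lea9, kill B D ω hBD, TensorProduct.zero_tmul]
      have := ins_card_le B H0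
      omega
    · refine iSup_le fun H => iSup_le fun hH => sup_le ?_ ?_
      · rw [Submodule.map_le_iff_le_comap]
        unfold OmH
        rw [Submodule.span_le]
        rintro x ⟨B, D, ω, hω, hBD, hsp, hcard, rfl⟩
        rw [SetLike.mem_coe, Submodule.mem_comap, LinearMap.mem_ker, pmt, kill B D ω hBD, mul_zero,
          TensorProduct.zero_tmul]
        have h1 := ins_card_lt B H0 (by
          intro hle
          rw [hsp] at hle
          have := Submodule.finrank_mono hle
          omega)
        omega
      · rw [Submodule.map_le_iff_le_comap]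
        unfold OmH
        rw [Submodule.span_le]
        rintro x ⟨B, D, ω, hω, hBD, hsp, hcard, rfl⟩
        rw [SetLike.mem_coe, Submodule.mem_comap, LinearMap.mem_ker, lea8, lea9, kill B D ω hBD,
          TensorProduct.zero_tmul, map_zero]
        have := ins_card_le B H0
        omega
    · refine iSup_le fun H => iSup_le fun hH => ?_
      rw [Submodule.map_le_iff_le_comap]
      unfold OmH
      rw [Submodule.span_le]
      rintro x ⟨B, D, ω, hω, hBD, hsp, hcard, rfl⟩
      rw [SetLike.mem_coe, Submodule.mem_comap, LinearMap.mem_ker, lea8, lea9, kill B D ω hBD,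
        TensorProduct.zero_tmul, map_zero]
      have := ins_card_le B H0
      omega
  have h0 := hker hsum
  rw [LinearMap.mem_ker, Finsupp.sum, map_sum] at h0
  -- the terms `H ≠ H0` vanish
  have hother : ∀ H : {H : Submodule K (Fin n → K) // c ∉ H ∧ Module.finrank K H = r}, H ≠ ⟨H0, hc, hr⟩ →
      ld π u (pm (lin c) (pm (prodm (out Z H.1)) (f H))) = 0 := by
    intro H hne
    have hle : Cc (k + 1) Z H.1 i ≤
        (LinearMap.ker (ld π u)).comap (pm (lin c) ∘ₗ pm (prodm (out Z H.1))) := by
      unfold Cc OmH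
      rw [Submodule.span_le]
      rintro x ⟨B, D, ω, hω, hBD, hsp, hcard, rfl⟩
      rw [SetLike.mem_coe, Submodule.mem_comap, LinearMap.mem_ker, LinearMap.comp_apply]
      have h1 : pm (prodm (out Z H.1)) (prodm D ⊗ₜ[K] ω) = prodm (D + out Z H.1) ⊗ₜ[K] ω := by
        rw [pm_tmul, prodm_add, mul_comm]
      rw [h1, pmt, kill B (D + out Z H.1) ω (by rw [← add_assoc, hBD, ins_add_out]), mul_zero,
        TensorProduct.zero_tmul]
      have h1 := ins_card_lt B H0 (by
        intro hle
        rw [hsp] at hle
        apply hne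
        apply Subtype.ext
        exact Submodule.eq_of_le_of_finrank_eq hle (by rw [H.2.2, hr]))
      omega
    exact hle (hf H)
  -- the term `H = H0`
  set QQ : MvPolynomial (Fin n) K := prodm ((out Z H0).map (fun v => v - π v)) with hQQ
  have hmain : ld π u (pm (lin c) (pm (prodm (out Z H0)) (f ⟨H0, hc, hr⟩))) =
      pm (lin c * QQ) (f ⟨H0, hc, hr⟩) := by
    have hle : Cc (k + 1) Z H0 i ≤
        LinearMap.ker (ld π u ∘ₗ (pm (lin c) ∘ₗ pm (prodm (out Z H0))) - pm (lin c * QQ)) := by
      unfold Cc OmH
      rw [Submodule.span_le]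
      rintro x ⟨B, D, ω, hω, hBD, hsp, hcard, rfl⟩
      rw [SetLike.mem_coe, LinearMap.mem_ker, LinearMap.sub_apply, LinearMap.comp_apply,
        LinearMap.comp_apply, sub_eq_zero]
      have h1 : pm (prodm (out Z H0)) (prodm D ⊗ₜ[K] ω) = prodm (D + out Z H0) ⊗ₜ[K] ω := by
        rw [pm_tmul, prodm_add, mul_comm]
      have hDH : ∀ z ∈ D, z ∈ H0 := by
        intro z hz
        have : z ∈ ins Z H0 := by rw [← hBD]; exact Multiset.mem_add.2 (Or.inr hz)
        exact (mem_ins.1 this).2
      have hinsD : ins (D + out Z H0) H0 = D := by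
        rw [ins_add, ins_eq_self hDH, ins_out, add_zero]
      have houtD : out (D + out Z H0) H0 = out Z H0 := by
        rw [out_add, out_ins D H0 hDH, zero_add, out_eq_self]
        intro z hz
        exact (mem_out.1 hz).2
      have hDu : (ins (D + out Z H0) H0).card = u := by
        rw [hinsD]
        have h := congrArg Multiset.card hBD
        rw [Multiset.card_add] at h
        have h3 : ((B.card + D.card : ℕ) : ℤ) = ((ins Z H0).card : ℤ) := by rw [h]
        push_cast at h3
        omega
      have h6 := l2 (D + out Z H0)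
      rw [hDu, hinsD, houtD] at h6
      rw [h1, pmt, h6, pm_tmul]
      congr 1
      rw [hQQ]
      ring
    have h7 := hle hfH
    rw [LinearMap.mem_ker, LinearMap.sub_apply, LinearMap.comp_apply, LinearMap.comp_apply,
      sub_eq_zero] at h7
    exact h7
  -- conclusion
  by_contra hne
  have hmem : (⟨H0, hc, hr⟩ : {H : Submodule K (Fin n → K) // c ∉ H ∧ Module.finrank K H = r}) ∈ f.support := by
    rw [Finsupp.mem_support_iff]
    exact hne
  rw [Finset.sum_eq_single_of_mem _ hmem (fun H _ hHne => hother H hHne)] at h0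
  rw [hmain] at h0
  have hcne : lin c ≠ 0 := by
    intro h
    rw [lin_eq_zero_iff] at h
    exact hc (by rw [h]; exact H0.zero_mem)
  have hQQne : QQ ≠ 0 := l3 (out Z H0) |> fun h => by
    rwa [show out (out Z H0) H0 = out Z H0 from out_eq_self (fun z hz => (mem_out.1 hz).2)] at h
  have hinj := pm_injective (K := K) (n := n) (mul_ne_zero hcne hQQne)
  exact hne (hinj (by rw [h0, map_zero]))

end Pool.Agent.ATB.H22
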